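import Mathlib

/-! Iterated connecting homomorphisms of a resolution, in an abelian category. -/

open CategoryTheory Limits Abelian

universe w v u

namespace Pool.Agent.H17.KW

noncomputable section

variable {C : Type u} [Category.{v} C] [Abelian C]

section chain

variable (D : ℕ → C) (δ : ∀ s, D (s + 1) ⟶ D s)

/-- The cycles of a chain complex `… → D 2 → D 1 → D 0` (`Z 0 = D 0`). -/
def Z : ℕ → C
  | 0 => D 0
  | s + 1 => kernel (δ s)

/-- The inclusion of the cycles. -/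
def Zι : ∀ s, Z D δ s ⟶ D s
  | 0 => 𝟙 (D 0)
  | s + 1 => kernel.ι (δ s)

variable (w : ∀ s, δ (s + 1) ≫ δ s = 0)

/-- The differential as a map to the cycles. -/
def toZ : ∀ s, D (s + 1) ⟶ Z D δ s
  | 0 => δ 0
  | s + 1 => kernel.lift (δ s) (δ (s + 1)) (w s)

lemma toZ_Zι (s : ℕ) : toZ D δ w s ≫ Zι D δ s = δ s := by
  cases s with
  | zero => exact Category.comp_id _
  | succ s => exact kernel.lift_ι _ _ _

instance mono_Zι (s : ℕ) : Mono (Zι D δ s) := by
  cases s with
  | zero => exact inferInstanceAs (Mono (𝟙 (D 0)))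
  | succ s => exact inferInstanceAs (Mono (kernel.ι (δ s)))

lemma Zι_toZ (s : ℕ) : Zι D δ (s + 1) ≫ toZ D δ w s = 0 := by
  rw [← cancel_mono (Zι D δ s), Category.assoc, toZ_Zι, zero_comp]
  exact kernel.condition _

/-- The short complex `Z (s+1) → D (s+1) → Z s`. -/
def SC (s : ℕ) : ShortComplex C :=
  ShortComplex.mk (Zι D δ (s + 1)) (toZ D δ w s) (Zι_toZ D δ w s)

/-- If `D 1 → D 0` is an epimorphism then the short complex with `s = 0` is short exact. -/
lemma SC_zero (h : Epi (δ 0)) : (SC D δ w 0).ShortExact :=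
  ShortComplex.ShortExact.mk' (ShortComplex.exact_kernel (δ 0)) (mono_Zι D δ 1) h

/-- If the complex is exact at `D (s+1)` then the short complex with index `s + 1` is short
exact. -/
lemma SC_succ (s : ℕ) (h : (ShortComplex.mk (δ (s + 1)) (δ s) (w s)).Exact) :
    (SC D δ w (s + 1)).ShortExact := by
  refine ShortComplex.ShortExact.mk' ?_ (mono_Zι D δ (s + 2)) ?_
  · rw [ShortComplex.exact_iff_exact_up_to_refinements]
    intro A x hx
    have hex := ShortComplex.exact_kernel (δ (s + 1))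
    rw [ShortComplex.exact_iff_exact_up_to_refinements] at hex
    refine hex x ?_
    have aux : ∀ (x : A ⟶ D (s + 1 + 1)), x ≫ toZ D δ w (s + 1) = 0 → x ≫ δ (s + 1) = 0 := by
      intro x h1
      rw [← toZ_Zι D δ w (s + 1), ← Category.assoc, h1, zero_comp]
    exact aux x hx
  · show Epi (toZ D δ w (s + 1))
    rw [epi_iff_surjective_up_to_refinements]
    intro A y
    rw [ShortComplex.exact_iff_exact_up_to_refinements] at h
    obtain ⟨A', p, hp, x, hx⟩ := h (y ≫ Zι D δ (s + 1)) (by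
      show (y ≫ Zι D δ (s + 1)) ≫ δ s = 0
      rw [Category.assoc]
      have : Zι D δ (s + 1) ≫ δ s = 0 := kernel.condition _
      rw [this, comp_zero])
    refine ⟨A', p, hp, x, ?_⟩
    rw [← cancel_mono (Zι D δ (s + 1)), Category.assoc, Category.assoc, toZ_Zι]
    exact hx

variable [HasExt.{w} C]

variable {D δ w} in
/-- The class of the extension `Z (s+1) → D (s+1) → Z s`. -/
def ec {s : ℕ} (h : (SC D δ w s).ShortExact) : Ext (Z D δ s) (Z D δ (s + 1)) 1 := h.extClass

variable {D δ w} in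
lemma toZ_ec {s : ℕ} (h : (SC D δ w s).ShortExact) :
    (Ext.mk₀ (toZ D δ w s)).comp (ec h) (zero_add 1) = 0 := h.comp_extClass

/-- The iterated connecting homomorphism `Ext^0(T, D 0) → Ext^s(T, Z s)`. -/
def conn (T : C) (d : ℕ) (h : ∀ s, s < d → (SC D δ w s).ShortExact) :
    ∀ s, s ≤ d → (Ext T (Z D δ 0) 0 →+ Ext T (Z D δ s) s)
  | 0, _ => AddMonoidHom.id _
  | s + 1, hs => ((ec (h s hs)).postcomp T rfl).comp
      (conn T d h s (Nat.le_of_succ_le hs))

lemma conn_zero (T : C) (d : ℕ) (h : ∀ s, s < d → (SC D δ w s).ShortExact) (hs : 0 ≤ d)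
    (x : Ext T (Z D δ 0) 0) : conn D δ w T d h 0 hs x = x := rfl

lemma conn_succ (T : C) (d : ℕ) (h : ∀ s, s < d → (SC D δ w s).ShortExact) (s : ℕ)
    (hs : s + 1 ≤ d) (x : Ext T (Z D δ 0) 0) : conn D δ w T d h (s + 1) hs x =
      (conn D δ w T d h s (Nat.le_of_succ_le hs) x).comp (ec (h s hs)) rfl := rfl

end chain

section resolution

variable (D : ℕ → C) (δ : ∀ s, D (s + 1) ⟶ D s)

/-- `0 → K → D (e+1) → D e → … → D 0 → 0` is exact. -/
structure IsRes (e : ℕ) {K : C} (k : K ⟶ D (e + 1)) : Prop where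
  w : ∀ s, δ (s + 1) ≫ δ s = 0
  w0 : k ≫ δ e = 0
  mono : Mono k
  exact0 : (ShortComplex.mk k (δ e) w0).Exact
  exact : ∀ s, s < e → (ShortComplex.mk (δ (s + 1)) (δ s) (w s)).Exact
  epi : Epi (δ 0)

variable {D δ}

lemma IsRes.shortExact {e : ℕ} {K : C} {k : K ⟶ D (e + 1)} (h : IsRes D δ e k) (s : ℕ)
    (hs : s < e + 1) : (SC D δ h.w s).ShortExact := by
  cases s with
  | zero => exact SC_zero D δ h.w h.epi
  | succ s => exact SC_succ D δ h.w s (h.exact s (Nat.lt_of_succ_lt_succ hs))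

/-- The isomorphism of `K` with the last cycles. -/
def IsRes.toZ {e : ℕ} {K : C} {k : K ⟶ D (e + 1)} (h : IsRes D δ e k) : K ⟶ Z D δ (e + 1) :=
  kernel.lift (δ e) k h.w0

lemma IsRes.isIso_toZ {e : ℕ} {K : C} {k : K ⟶ D (e + 1)} (h : IsRes D δ e k) :
    IsIso h.toZ := by
  have hm := h.mono
  have h1 : h.toZ ≫ Zι D δ (e + 1) = k := kernel.lift_ι _ _ _
  have h2 : Mono h.toZ := by
    have : Mono (h.toZ ≫ Zι D δ (e + 1)) := by rw [h1]; exact hm
    exact mono_of_mono h.toZ (Zι D δ (e + 1))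
  have h3 : Epi h.toZ := by
    rw [epi_iff_surjective_up_to_refinements]
    intro A y
    have hex := h.exact0
    rw [ShortComplex.exact_iff_exact_up_to_refinements] at hex
    obtain ⟨A', p, hp, x, hx⟩ := hex (y ≫ Zι D δ (e + 1)) (by
      show (y ≫ Zι D δ (e + 1)) ≫ δ e = 0
      rw [Category.assoc]
      have : Zι D δ (e + 1) ≫ δ e = 0 := kernel.condition _
      rw [this, comp_zero])
    refine ⟨A', p, hp, x, ?_⟩
    rw [← cancel_mono (Zι D δ (e + 1)), Category.assoc, Category.assoc, h1]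
    exact hx
  exact isIso_of_mono_of_epi _

variable [HasExt.{w} C]

/-- The homomorphism `Ext^0(T, D 0) → Ext^(e+1)(T, K)` attached to a resolution. -/
def IsRes.cyc {e : ℕ} {K : C} {k : K ⟶ D (e + 1)} (h : IsRes D δ e k) (T : C) :
    Ext T (Z D δ 0) 0 →+ Ext T K (e + 1) :=
  haveI := h.isIso_toZ
  ((Ext.mk₀ (inv h.toZ)).postcomp T (add_zero (e + 1))).comp
    (conn D δ h.w T (e + 1) h.shortExact (e + 1) le_rfl)

/-- The homomorphism of a resolution kills the boundaries. -/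
lemma IsRes.cyc_boundary {e : ℕ} {K : C} {k : K ⟶ D (e + 1)} (h : IsRes D δ e k) (T : C)
    (x : Ext T (D 1) 0) :
    h.cyc T (x.comp (Ext.mk₀ (Pool.Agent.H17.KW.toZ D δ h.w 0)) (add_zero 0)) = 0 := by
  have key : ∀ s (hs : s + 1 ≤ e + 1), conn D δ h.w T (e + 1) h.shortExact (s + 1) hs
      (x.comp (Ext.mk₀ (Pool.Agent.H17.KW.toZ D δ h.w 0)) (add_zero 0)) = 0 := by
    intro s
    induction s with
    | zero =>
      intro hs
      rw [conn_succ, conn_zero, Ext.comp_assoc (a₁₂ := 0) (a₂₃ := 1) _ _ _ (by lia) (by lia) (by lia),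
        toZ_ec, Ext.comp_zero]
    | succ s ih =>
      intro hs
      rw [conn_succ, ih (Nat.le_of_succ_le hs), Ext.zero_comp]
  have := h.isIso_toZ
  show (conn D δ h.w T (e + 1) h.shortExact (e + 1) le_rfl
    (x.comp (Ext.mk₀ (Pool.Agent.H17.KW.toZ D δ h.w 0)) (add_zero 0))).comp
      (Ext.mk₀ (inv h.toZ)) (add_zero (e + 1)) = 0
  rw [key e le_rfl, Ext.zero_comp]

end resolution

end

end Pool.Agent.H17.KW
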