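import Pool.Agent.H17.KW.Cx

/-! The restriction map `CH_1(X)/p^r → H^d(X_n, K^M_d/p^r)` and the statement of the theorem. -/

open CategoryTheory TopologicalSpace Opposite AlgebraicGeometry Limits
open Pool.Agent.H62.MK Pool.Agent.H84.KEW

universe u

namespace Pool.Agent.H17.KW

noncomputable section

section generic

variable (X : Scheme.{u})

/-- The homomorphism from `O(U)` to the residue field of a point of `U`. -/
def evPt (v : X) (U : X.Opens) (h : v ∈ U) : Γ(X, U) →+* kap X v :=
  (IsLocalRing.residue (X.presheaf.stalk v)).comp (X.presheaf.germ U v h).hom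

open Classical in
/-- The map `K^M_d(O(U)) → K_d(κ(v))` for `v ∈ U` (zero for `v ∉ U`). -/
def topVal (d : ℕ) (U : X.Opens) (v : X) : MilnorK Γ(X, U) d →+ MilnorK (kap X v) d :=
  if h : v ∈ U then Pool.Agent.H62.MK.map (evPt X v U h) d else 0

lemma topVal_of_mem (d : ℕ) (U : X.Opens) (v : X) (h : v ∈ U) :
    topVal X d U v = Pool.Agent.H62.MK.map (evPt X v U h) d := dif_pos h

lemma topVal_of_not (d : ℕ) (U : X.Opens) (v : X) (h : v ∉ U) : topVal X d U v = 0 := dif_neg h

lemma topVal_res (d : ℕ) {U V : X.Opens} (hV : V ≤ U) (v : X) (h : v ∈ V)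
    (a : MilnorK Γ(X, U) d) :
    topVal X d V v (Pool.Agent.H62.MK.map (X.presheaf.map (homOfLE hV).op).hom d a) =
      topVal X d U v a := by
  rw [topVal_of_mem X d V v h, topVal_of_mem X d U v (hV h)]
  have h1 : (evPt X v V h).comp (X.presheaf.map (homOfLE hV).op).hom = evPt X v U (hV h) := by
    unfold evPt
    rw [RingHom.comp_assoc]
    congr 1
    exact congrArg (fun f => f.hom)
      (TopCat.Presheaf.germ_res X.presheaf (homOfLE hV) v h)
  have h3 := congrArg (fun f : _ →+ _ => f a)
    (milnor_map_comp (X.presheaf.map (homOfLE hV).op).hom (evPt X v V h) d)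
  rw [h1] at h3
  exact h3.symm

variable [IsNoetherian X]

/-- A noetherian scheme has finitely many points of codimension zero. -/
lemma finite_pts (d : ℕ) : (Set.univ : Set (Pts X d d)).Finite := by
  have key : {z : X | ∀ z', z' ⤳ z → z' = z}.Finite := by
    choose V hV hfin using fun x : X => Pool.Agent.H17.KE.finite_minimal X x
    obtain ⟨t, ht⟩ := isCompact_univ.elim_finite_subcover
      (fun x : X => ((V x : X.Opens) : Set X))
      (fun x => (V x).isOpen) (fun x _ => Set.mem_iUnion.2 ⟨x, hV x⟩)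
    refine (Set.Finite.biUnion t.finite_toSet
      (fun x _ => hfin x Set.univ isClosed_univ)).subset ?_
    intro z hz
    obtain ⟨x, hx, hzx⟩ := Set.mem_iUnion₂.1 (ht (Set.mem_univ z))
    exact Set.mem_biUnion (x := x) hx ⟨hzx, Set.mem_univ z, fun z' _ h => hz z' h⟩
  refine Set.Finite.of_injOn (f := fun v : Pts X d d => v.1) ?_
    (fun a _ b _ hab => Subtype.ext hab) key
  intro v _ z' hz'
  have h1 : Order.coheight v.1 = 0 := by
    have h2 := v.2
    have h3 : Order.coheight v.1 ≠ ⊤ := by
      intro h4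
      rw [h4] at h2
      exact absurd h2.symm (by rw [top_add]; exact ENat.natCast_ne_top d)
    obtain ⟨m, hm⟩ := ENat.ne_top_iff_exists.mp h3
    rw [← hm] at h2 ⊢
    have h5 : m + d = d := by exact_mod_cast h2
    have h6 : m = 0 := by omega
    rw [h6]
    rfl
  rw [Order.coheight_eq_zero] at h1
  have h2 : v.1 ≤ z' := Scheme.le_iff_specializes.mpr hz'
  have h3 : z' ≤ v.1 := h1 h2
  exact ((Scheme.le_iff_specializes.mp h3).antisymm hz').eq.symm

open Classical in
/-- The map `K^M_d(O(U)) → ⨁ K_d(κ(v))`, `v ∈ U` of codimension zero. -/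
def topFam (d : ℕ) (U : X.Opens) : MilnorK Γ(X, U) d →+
    Π₀ v : Pts X d d, MilnorK (kap X v.1) d where
  toFun a := DFinsupp.mk (finite_pts X d).toFinset (fun v => topVal X d U v.1.1 a)
  map_zero' := by
    refine DFinsupp.ext fun i => ?_
    rw [DFinsupp.mk_of_mem ((finite_pts X d).mem_toFinset.mpr (Set.mem_univ i)), map_zero]
    rfl
  map_add' a b := by
    refine DFinsupp.ext fun i => ?_
    have hi := (finite_pts X d).mem_toFinset.mpr (Set.mem_univ i)
    rw [DFinsupp.add_apply, DFinsupp.mk_of_mem hi, DFinsupp.mk_of_mem hi,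
      DFinsupp.mk_of_mem hi, map_add]

lemma topFam_apply (d : ℕ) (U : X.Opens) (a : MilnorK Γ(X, U) d) (i : Pts X d d) :
    topFam X d U a i = topVal X d U i.1 a := by
  classical
  change (DFinsupp.mk (finite_pts X d).toFinset (fun v => topVal X d U v.1.1 a) :
    Π₀ v : Pts X d d, MilnorK (kap X v.1) d) i = _
  rw [DFinsupp.mk_of_mem ((finite_pts X d).mem_toFinset.mpr (Set.mem_univ i))]

lemma topFam_supp (d : ℕ) (U : X.Opens) (a : MilnorK Γ(X, U) d) (i : Pts X d d)
    (hi : i.1 ∉ U) : topFam X d U a i = 0 := by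
  rw [topFam_apply, topVal_of_not X d U i.1 hi]
  rfl

lemma topFam_res (d : ℕ) {U V : X.Opens} (hV : V ≤ U) (a : MilnorK Γ(X, U) d) :
    topFam X d V (Pool.Agent.H62.MK.map (X.presheaf.map (homOfLE hV).op).hom d a) =
      keep (X := X.toTopCat) (fun v : Pts X d d => (v.1 : X)) (fun v => MilnorK (kap X v.1) d) V
        (topFam X d U a) := by
  refine DFinsupp.ext fun i => ?_
  by_cases hiV : i.1 ∈ V
  · rw [keep_apply_pos (X := X.toTopCat) (fun v : Pts X d d => (v.1 : X)) _ hiV,
      topFam_apply, topFam_apply]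
    exact topVal_res X d hV i.1 hiV a
  · rw [keep_apply_neg (X := X.toTopCat) (fun v : Pts X d d => (v.1 : X)) _ hiV,
      topFam_supp X d V _ i hiV]

/-- The map of presheaves from `U ↦ K^M_d(O(U))` to `C^0`. -/
def topPre (d : ℕ) : KPre X d ⟶ (D X d d).obj where
  app U := AddCommGrpCat.ofHom ((topFam X d U.unop).codRestrict
    ((E (X := X.toTopCat) (fun v : Pts X d d => (v.1 : X))
      (fun v => MilnorK (kap X v.1) d)).sec U.unop)
      (fun a i hi => topFam_supp X d U.unop a i hi))
  naturality {U V} g := by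
    ext a
    exact Subtype.ext (topFam_res X d g.unop.le a)

/-- The map of sheaves `K^M_{d,X} ⟶ C^0`. -/
def topSh (d : ℕ) : KSh X d ⟶ D X d d :=
  ⟨sheafifyLift (Opens.grothendieckTopology X.toTopCat) (topPre X d) (D X d d).2⟩

/-- The Gersten conjecture for the Milnor K-sheaf `K^M_{e+1,X}`: the Gersten complex
`0 → K^M_{e+1,X} → C^0 → C^1 → … → C^(e+1) → 0` is exact. -/
def Gersten (e : ℕ) : Prop := IsRes (D X (e + 1)) (dD X (e + 1)) e (topSh X (e + 1))

end generic

section chow

variable (X : Scheme.{u}) [IsNoetherian X]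

/-- The group of cycles of codimension `d`: finitely supported families in `K_0(κ(z)) = ℤ`,
`z` of codimension `d`. -/
abbrev Cyc (d : ℕ) : Type u := Π₀ z : Pts X d 0, MilnorK (kap X z.1) 0

/-- The Chow group `CH^(e+1)(X)`: cycles of codimension `e + 1` modulo the subgroup generated by
the divisors of rational functions on integral closed subschemes of codimension `e`. -/
def CH (e : ℕ) : Type u := Cyc X (e + 1) ⧸ (dFam X (e + 1) 0).range

instance (e : ℕ) : AddCommGroup (CH X e) :=
  inferInstanceAs (AddCommGroup (Cyc X (e + 1) ⧸ (dFam X (e + 1) 0).range))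

/-- The cycles of codimension `d` are the global sections of `C^d`. -/
def toSec (d : ℕ) : Cyc X d →+ (E (X := X.toTopCat) (fun v : Pts X d 0 => (v.1 : X))
      (fun v => MilnorK (kap X v.1) 0)).sec ⊤ where
  toFun c := ⟨c, fun _ hi => absurd trivial hi⟩
  map_zero' := rfl
  map_add' _ _ := rfl

/-- The constant sheaf `ℤ`. -/
abbrev ZSh : AbSh X := (constantSheaf (Opens.grothendieckTopology X.toTopCat)
  AddCommGrpCat.{u}).obj (AddCommGrpCat.of (ULift.{u} ℤ))

/-- Global sections of a sheaf as classes of degree zero. -/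
def secH (F : AbSh X) : F.obj.obj (op ⊤) →+ Abelian.Ext (ZSh X) F 0 :=
  (Sheaf.H.equiv₀ F (T := (⊤ : Opens X.toTopCat)) isTerminalTop).symm.toAddMonoidHom

variable {X} {e : ℕ}

/-- The isomorphism `CH^d(X) → H^d(X, K^M_{d,X})` on the level of cycles: the iterated connecting
homomorphism of the Gersten resolution. -/
def cycK (h : Gersten X e) : Cyc X (e + 1) →+ Sheaf.H (KSh X (e + 1)) (e + 1) :=
  ((IsRes.cyc h (ZSh X)).comp (secH X (D X (e + 1) 0))).comp (toSec X (e + 1))

end chow

end

end Pool.Agent.H17.KW
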