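import Pool.Agent.H17.KW.Stmt

/-! The restriction map `CH^d(X)/q → H^d(X_n, K^M_d/q)` and the statement of the theorem. -/

open CategoryTheory TopologicalSpace Opposite AlgebraicGeometry Limits
open Pool.Agent.H62.MK Pool.Agent.H84.KEW

universe u

namespace Pool.Agent.H17.KW

noncomputable section

section torsion

lemma H_map_zero {X : Scheme.{u}} {F G : AbSh X} {n : ℕ} (x : Sheaf.H F n) :
    Sheaf.H.map (0 : F ⟶ G) n x = 0 := by
  rw [Sheaf.H.map_apply, Abelian.Ext.mk₀_zero, Abelian.Ext.comp_zero]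

lemma H_map_nsmul {X : Scheme.{u}} {F : AbSh X} (k : ℕ) {n : ℕ} (x : Sheaf.H F n) :
    Sheaf.H.map (k • 𝟙 F) n x = k • x := by
  induction k with
  | zero => rw [zero_nsmul, zero_nsmul, H_map_zero]
  | succ k ih => rw [succ_nsmul, succ_nsmul, Sheaf.H.map_add_apply, ih, Sheaf.H.map_id_apply]

/-- If `q` kills `F` then `q` kills `H^n(F)`. -/
lemma nsmul_H_eq_zero {X : Scheme.{u}} {F : AbSh X} (q : ℕ) (h : q • 𝟙 F = 0) {n : ℕ}
    (x : Sheaf.H F n) : q • x = 0 := by
  rw [← H_map_nsmul, h, H_map_zero]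

lemma toModQ_nsmul (q : ℕ) (M : Type u) [AddCommGroup M] (x : ModQ q M) : q • x = 0 := by
  obtain ⟨y, rfl⟩ := toModQ_surjective q M x
  rw [← map_nsmul]
  exact (toModQ_eq_zero q M _).mpr ⟨y, rfl⟩

lemma KModPre_nsmul (X : Scheme.{u}) (q n : ℕ) : q • 𝟙 (KModPre X q n) = 0 := by
  refine NatTrans.ext (funext fun U => ?_)
  refine AddCommGrpCat.hom_ext (AddMonoidHom.ext fun x => ?_)
  exact toModQ_nsmul q _ x

lemma KModSh_nsmul (X : Scheme.{u}) (q n : ℕ) : q • 𝟙 (KModSh X q n) = 0 := by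
  have h := ((presheafToSheaf (Opens.grothendieckTopology X.toTopCat) AddCommGrpCat.{u}).mapAddHom
    (X := KModPre X q n) (Y := KModPre X q n)).map_nsmul q (𝟙 (KModPre X q n))
  rw [KModPre_nsmul, map_zero] at h
  rw [Functor.coe_mapAddHom, CategoryTheory.Functor.map_id] at h
  exact h.symm

lemma nsmul_app {X : Scheme.{u}} {F : AbSh X} (k : ℕ) (U : (Opens X.toTopCat)ᵒᵖ)
    (x : F.obj.obj U) : (k • 𝟙 F : F ⟶ F).hom.app U x = k • x := by
  induction k with
  | zero => rw [zero_nsmul, zero_nsmul]; rfl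
  | succ k ih =>
    rw [succ_nsmul, succ_nsmul, ← ih]
    rfl

lemma dirIm_nsmul {X Y : Scheme.{u}} (i : Y ⟶ X) (F : AbSh Y) (q : ℕ) (h : q • 𝟙 F = 0) :
    q • 𝟙 (dirIm i F) = 0 := by
  refine Sheaf.hom_ext (NatTrans.ext (funext fun U => ?_))
  refine AddCommGrpCat.hom_ext (AddMonoidHom.ext fun x => ?_)
  have h1 := nsmul_app (F := F) q (op ((Opens.map i.base).obj U.unop)) x
  rw [h] at h1
  exact (nsmul_app (F := dirIm i F) q U x).trans h1.symm

end torsion

section targetsheaf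

variable {A : Type u} [CommRing A] [IsLocalRing A] {X : Scheme.{u}}

/-- The sheaf `F_n = i_* (K^M_{m, X_n} / q)` on `X`, where `i : X_n → X` is the thickening of the
special fibre. -/
def Fsh (f : X ⟶ Spec (CommRingCat.of A)) (q m n : ℕ) : AbSh X :=
  dirIm (thickι f n) (KModSh (thick f n) q m)

lemma Fsh_nsmul (f : X ⟶ Spec (CommRingCat.of A)) (q m n : ℕ) : q • 𝟙 (Fsh f q m n) = 0 :=
  dirIm_nsmul _ _ q (KModSh_nsmul _ q m)

end targetsheaf

section resmap

variable {X : Scheme.{u}} [IsNoetherian X] {e : ℕ}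

/-- A family in `K_1` as a section of `C^(d-1)`. -/
def toSec1 (c : Π₀ v : Pts X (e + 1) (0 + 1), MilnorK (kap X v.1) (0 + 1)) :
    (D X (e + 1) (0 + 1)).obj.obj (op ⊤) :=
  show (E (X := X.toTopCat) (fun v : Pts X (e + 1) (0 + 1) => (v.1 : X))
      (fun v => MilnorK (kap X v.1) (0 + 1))).sec ⊤ from ⟨c, fun _ hi => absurd trivial hi⟩

/-- The map from cycles to cohomology kills the divisors of functions. -/
lemma cycK_dFam (h : Gersten X e)
    (c : Π₀ v : Pts X (e + 1) (0 + 1), MilnorK (kap X v.1) (0 + 1)) :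
    cycK h (dFam X (e + 1) 0 c) = 0 := by
  have h1 : (toSec X (e + 1) (dFam X (e + 1) 0 c) : (D X (e + 1) 0).obj.obj (op ⊤)) =
      (dD X (e + 1) 0).hom.app (op ⊤) (toSec1 c) := by
    refine Subtype.ext ?_
    refine DFinsupp.ext fun i => ?_
    exact (keep_apply_pos (X := X.toTopCat) (fun v : Pts X (e + 1) 0 => (v.1 : X)) _
      (Opens.mem_top i.1)).symm
  have h2 := Sheaf.H.equiv₀_symm_naturality (T := (⊤ : Opens X.toTopCat)) isTerminalTop
    (dD X (e + 1) 0) (toSec1 c)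
  have h3 : secH X (D X (e + 1) 0) (toSec X (e + 1) (dFam X (e + 1) 0 c)) =
      (secH X (D X (e + 1) (0 + 1)) (toSec1 c)).comp
        (Abelian.Ext.mk₀ (dD X (e + 1) 0)) (add_zero 0) := by
    refine Eq.trans ?_ h2.symm
    exact congrArg (secH X (D X (e + 1) 0)) h1
  have h4 := IsRes.cyc_boundary h (ZSh X) (secH X (D X (e + 1) (0 + 1)) (toSec1 c))
  exact (congrArg (IsRes.cyc h (ZSh X)) h3).trans h4

variable {A : Type u} [CommRing A] [IsLocalRing A]

/-- The restriction of the class of a cycle to `H^d(X_n, K^M_d / q)`, on cycles. -/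
def resCyc (f : X ⟶ Spec (CommRingCat.of A)) (q n : ℕ) (h : Gersten X e) :
    Cyc X (e + 1) →+ Sheaf.H (Fsh f q (e + 1) n) (e + 1) :=
  (Sheaf.H.map (redSh (thickι f n) q (e + 1)) (e + 1)).comp (cycK h)

lemma resCyc_dFam (f : X ⟶ Spec (CommRingCat.of A)) (q n : ℕ) (h : Gersten X e) :
    (dFam X (e + 1) 0).range ≤ (resCyc f q n h).ker := by
  rintro _ ⟨c, rfl⟩
  rw [AddMonoidHom.mem_ker]
  exact (congrArg (Sheaf.H.map (redSh (thickι f n) q (e + 1)) (e + 1)) (cycK_dFam h c)).trans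
    (map_zero _)

/-- The restriction map on `CH^d(X)`. -/
def resCH (f : X ⟶ Spec (CommRingCat.of A)) (q n : ℕ) (h : Gersten X e) :
    CH X e →+ Sheaf.H (Fsh f q (e + 1) n) (e + 1) :=
  QuotientAddGroup.lift (dFam X (e + 1) 0).range (resCyc f q n h) (resCyc_dFam f q n h)

lemma resCH_nsmul (f : X ⟶ Spec (CommRingCat.of A)) (q n : ℕ) (h : Gersten X e) :
    (nsmulAddMonoidHom q : CH X e →+ CH X e).range ≤ (resCH f q n h).ker := by
  rintro _ ⟨c, rfl⟩
  rw [AddMonoidHom.mem_ker]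
  exact (map_nsmul (resCH f q n h) q c).trans
    (nsmul_H_eq_zero q (Fsh_nsmul f q (e + 1) n) _)

/-- The restriction map `CH^d(X) / q → H^d(X_n, K^M_{d, X_n} / q)` (`d = e + 1`). -/
def res (f : X ⟶ Spec (CommRingCat.of A)) (q n : ℕ) (h : Gersten X e) :
    ModQ q (CH X e) →+ Sheaf.H (Fsh f q (e + 1) n) (e + 1) :=
  QuotientAddGroup.lift (nsmulAddMonoidHom q : CH X e →+ CH X e).range (resCH f q n h)
    (resCH_nsmul f q n h)

end resmap

/-- **The statement.** Let `A` be a henselian discrete valuation ring of characteristic zero with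
residue field of characteristic `p > 0`, let `X` be a (noetherian) scheme, smooth and projective
over `A` of relative dimension `e + 1`, for which the Gersten conjecture for `K^M_{e+1}` holds. Then for
every `r` and all large `n` the restriction map
`CH_1(X) / p^r → H^(e+1)(X_n, K^M_{e+1, X_n} / p^r)` is injective. -/
def Statement : Prop :=
  ∀ (A : Type u) [CommRing A] [IsDomain A] [IsDiscreteValuationRing A] [HenselianLocalRing A]
    [CharZero A] (p : ℕ) [Fact p.Prime] [CharP (IsLocalRing.ResidueField A) p]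
    (X : Scheme.{u}) [IsNoetherian X] (f : X ⟶ Spec (CommRingCat.of A)) (e : ℕ)
    [SmoothOfRelativeDimension (e + 1) f], IsProjectiveOver f → ∀ (h : Gersten X e) (r : ℕ),
    ∃ n₀ : ℕ, ∀ n, n₀ ≤ n → Function.Injective (res f (p ^ r) n h)

end

end Pool.Agent.H17.KW
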