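import Pool.Agent.H62.MK.Defs3
import Pool.Agent.H17.KE.Bad

/-! The sheaves of Milnor K-groups of a scheme and of its thickenings. -/

open CategoryTheory TopologicalSpace Opposite AlgebraicGeometry Limits
open Pool.Agent.H62.MK

universe u

namespace Pool.Agent.H17.KW

noncomputable section

section functor

variable {R S T : Type u} [CommRing R] [CommRing S] [CommRing T]

lemma milnor_map_id (n : ℕ) : map (RingHom.id R) n = AddMonoidHom.id (MilnorK R n) := by
  apply hom_ext
  intro a
  rw [map_sym]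
  rfl

lemma milnor_map_comp (f : R →+* S) (g : S →+* T) (n : ℕ) :
    map (g.comp f) n = (map g n).comp (map f n) := by
  apply hom_ext
  intro a
  rw [AddMonoidHom.comp_apply, map_sym, map_sym, map_sym]
  rfl

/-- The functor `R ↦ K^M_n(R)`. -/
def MilnorFunctor (n : ℕ) : CommRingCat.{u} ⥤ AddCommGrpCat.{u} where
  obj R := AddCommGrpCat.of (MilnorK R n)
  map f := AddCommGrpCat.ofHom (map f.hom n)
  map_id R := by rw [CommRingCat.hom_id, milnor_map_id]; rfl
  map_comp f g := by rw [CommRingCat.hom_comp, milnor_map_comp]; rfl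

/-- `M / q` for an abelian group `M` and a natural number `q`. -/
def ModQ (q : ℕ) (M : Type u) [AddCommGroup M] : Type u := M ⧸ (nsmulAddMonoidHom q : M →+ M).range

instance (q : ℕ) (M : Type u) [AddCommGroup M] : AddCommGroup (ModQ q M) :=
  inferInstanceAs (AddCommGroup (M ⧸ (nsmulAddMonoidHom q : M →+ M).range))

/-- The projection `M → M / q`. -/
def toModQ (q : ℕ) (M : Type u) [AddCommGroup M] : M →+ ModQ q M :=
  QuotientAddGroup.mk' (nsmulAddMonoidHom q : M →+ M).range

lemma toModQ_surjective (q : ℕ) (M : Type u) [AddCommGroup M] :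
    Function.Surjective (toModQ q M) := QuotientAddGroup.mk'_surjective _

lemma toModQ_eq_zero (q : ℕ) (M : Type u) [AddCommGroup M] (x : M) :
    toModQ q M x = 0 ↔ ∃ y, q • y = x := by
  refine (QuotientAddGroup.eq_zero_iff x).trans ?_
  exact Iff.rfl

/-- Functoriality of `M ↦ M / q`. -/
def ModQ.map (q : ℕ) {M N : Type u} [AddCommGroup M] [AddCommGroup N] (f : M →+ N) :
    ModQ q M →+ ModQ q N :=
  QuotientAddGroup.map _ _ f (by
    rintro x ⟨y, rfl⟩
    exact ⟨f y, by simp⟩)

lemma ModQ.map_mk (q : ℕ) {M N : Type u} [AddCommGroup M] [AddCommGroup N] (f : M →+ N) (x : M) :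
    ModQ.map q f (toModQ q M x) = toModQ q N (f x) := rfl

/-- The functor `R ↦ K^M_n(R) / q`. -/
def MilnorModFunctor (q n : ℕ) : CommRingCat.{u} ⥤ AddCommGrpCat.{u} where
  obj R := AddCommGrpCat.of (ModQ q (MilnorK R n))
  map f := AddCommGrpCat.ofHom (ModQ.map q (Pool.Agent.H62.MK.map f.hom n))
  map_id R := by
    ext x
    obtain ⟨y, rfl⟩ := toModQ_surjective q _ x
    rw [CommRingCat.hom_id, milnor_map_id]; rfl
  map_comp f g := by
    ext x
    obtain ⟨y, rfl⟩ := toModQ_surjective q _ x
    rw [CommRingCat.hom_comp, milnor_map_comp]; rfl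

/-- The natural transformation `K^M_n → K^M_n / q`. -/
def MilnorModProj (q n : ℕ) : MilnorFunctor.{u} n ⟶ MilnorModFunctor.{u} q n where
  app R := AddCommGrpCat.ofHom (toModQ q (MilnorK R n))
  naturality _ _ _ := rfl

end functor

section sheaves

variable (X : Scheme.{u})

/-- The category of sheaves of abelian groups on the Zariski space of `X`. -/
abbrev AbSh := Sheaf (Opens.grothendieckTopology X.toTopCat) AddCommGrpCat.{u}

/-- The presheaf `U ↦ K^M_n(O(U))`. -/
def KPre (n : ℕ) : (Opens X.toTopCat)ᵒᵖ ⥤ AddCommGrpCat.{u} := X.presheaf ⋙ MilnorFunctor n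

/-- The Milnor K-sheaf `K^M_{n,X}`: the sheaf associated with `U ↦ K^M_n(O(U))`. -/
def KSh (n : ℕ) : AbSh X := (presheafToSheaf _ _).obj (KPre X n)

/-- The presheaf `U ↦ K^M_n(O(U)) / q`. -/
def KModPre (q n : ℕ) : (Opens X.toTopCat)ᵒᵖ ⥤ AddCommGrpCat.{u} :=
  X.presheaf ⋙ MilnorModFunctor q n

/-- The sheaf `K^M_{n,X} / q`. -/
def KModSh (q n : ℕ) : AbSh X := (presheafToSheaf _ _).obj (KModPre X q n)

end sheaves

section reduction

variable {X Y : Scheme.{u}} (i : Y ⟶ X) (q n : ℕ)

/-- The direct image `i_* F`. -/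
def dirIm (F : AbSh Y) : AbSh X := (TopCat.Sheaf.pushforward AddCommGrpCat.{u} i.base).obj F

/-- The natural map of presheaves `K^M_n(O_X(U)) → (K^M_{n,Y} / q)(i⁻¹ U)`. -/
def redPre : KPre X n ⟶ (dirIm i (KModSh Y q n)).obj :=
  (Functor.whiskerRight i.c (MilnorFunctor n)) ≫
    (Functor.whiskerLeft ((Opens.map i.base).op ⋙ Y.presheaf) (MilnorModProj q n)) ≫
    (Functor.whiskerLeft (Opens.map i.base).op
      (toSheafify (Opens.grothendieckTopology Y.toTopCat) (KModPre Y q n)))

/-- The natural map of sheaves `K^M_{n,X} → i_* (K^M_{n,Y} / q)` for a morphism `i : Y → X`. -/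
def redSh : KSh X n ⟶ dirIm i (KModSh Y q n) :=
  ⟨sheafifyLift (Opens.grothendieckTopology X.toTopCat) (redPre i q n)
    (dirIm i (KModSh Y q n)).2⟩

end reduction

section thick

variable {A : Type u} [CommRing A] [IsLocalRing A] {X : Scheme.{u}}

/-- The thickening `X_n = X ×_A A/m^n` of the special fibre. -/
def thick (f : X ⟶ Spec (CommRingCat.of A)) (n : ℕ) : Scheme.{u} :=
  pullback f (Spec.map (CommRingCat.ofHom (Ideal.Quotient.mk (IsLocalRing.maximalIdeal A ^ n))))

/-- The closed immersion `X_n → X`. -/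
def thickι (f : X ⟶ Spec (CommRingCat.of A)) (n : ℕ) : thick f n ⟶ X := pullback.fst _ _

attribute [local instance] MvPolynomial.gradedAlgebra in
/-- `X` is projective over the affine scheme `Spec A`: there is a closed immersion over `Spec A`
into a projective space `P^N_A = Proj A[x_0, …, x_N]`. -/
def IsProjectiveOver {A : Type u} [CommRing A] {X : Scheme.{u}}
    (f : X ⟶ Spec (CommRingCat.of A)) : Prop :=
  ∃ (N : ℕ) (i : X ⟶ Proj (MvPolynomial.homogeneousSubmodule (Fin (N + 1)) A)),
    IsClosedImmersion i ∧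
    i ≫ Proj.toSpecZero (MvPolynomial.homogeneousSubmodule (Fin (N + 1)) A) ≫
      Spec.map (CommRingCat.ofHom (algebraMap A
        (MvPolynomial.homogeneousSubmodule (Fin (N + 1)) A 0))) = f

end thick

end

end Pool.Agent.H17.KW
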