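import Pool.Agent.H84.KEW.Defs
import Pool.Agent.H17.KW.KSheaf
import Pool.Agent.H17.KW.Chain

/-! The Gersten complex of the Milnor K-sheaf `K^M_d` of a noetherian integral scheme. -/

open CategoryTheory TopologicalSpace Opposite AlgebraicGeometry Limits
open Pool.Agent.H62.MK Pool.Agent.H84.KEW

universe u

namespace Pool.Agent.H17.KW

noncomputable section

/-- Kato's residue map `K_(n+1)(F) → K_n(κ)` for a local ring `O` with residue field `κ` and a ring
homomorphism from `O` to a field `F`. -/
def resOf {O F : Type u} [CommRing O] [IsLocalRing O] [Field F] (ρ : O →+* F) (n : ℕ) :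
    MilnorK F (n + 1) →+ MilnorK (IsLocalRing.ResidueField O) n :=
  letI := ρ.toAlgebra
  gerstenResidue O F n

section points

variable (X : Scheme.{u})

/-- The residue field of a point. -/
abbrev kap (v : X) : Type u := IsLocalRing.ResidueField (X.presheaf.stalk v)

/-- The points of codimension `d - s` (for `s ≤ d`; there is none for `s > d`). -/
abbrev Pts (d s : ℕ) : Type u := {v : X // Order.coheight v + (s : ℕ∞) = (d : ℕ∞)}

variable {X}

/-- The homomorphism from the local ring at `w` to the residue field of a generization `v`. -/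
def rho {v w : X} (h : v ⤳ w) : X.presheaf.stalk w →+* kap X v :=
  (IsLocalRing.residue (X.presheaf.stalk v)).comp (X.presheaf.stalkSpecializes h).hom

open Classical in
/-- The entry `K_(n+1)(κ(v)) → K_n(κ(w))` of the differential of the Gersten complex. -/
def entry (v w : X) (n : ℕ) : MilnorK (kap X v) (n + 1) →+ MilnorK (kap X w) n :=
  if h : v ⤳ w then resOf (rho h) n else 0

variable (X)

open Classical in
/-- The column at `v` of the differential of the Gersten complex (zero if it were not finite). -/
def column (d s : ℕ) (v : Pts X d (s + 1)) :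
    MilnorK (kap X v.1) (s + 1) →+ Π₀ w : Pts X d s, MilnorK (kap X w.1) s :=
  if h : ∀ x : MilnorK (kap X v.1) (s + 1), {w : Pts X d s | entry v.1 w.1 s x ≠ 0}.Finite then
    { toFun := fun x => DFinsupp.mk (h x).toFinset (fun w => entry v.1 w.1.1 s x)
      map_zero' := by
        refine DFinsupp.ext fun w => ?_
        by_cases hw : w ∈ (h 0).toFinset
        · rw [DFinsupp.mk_of_mem hw, map_zero, DFinsupp.zero_apply]
        · rw [DFinsupp.mk_of_notMem hw, DFinsupp.zero_apply]
      map_add' := fun x y => by
        have key : ∀ (x : MilnorK (kap X v.1) (s + 1)) (w : Pts X d s),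
            (DFinsupp.mk (h x).toFinset (fun w => entry v.1 w.1.1 s x) :
              Π₀ w : Pts X d s, MilnorK (kap X w.1) s) w = entry v.1 w.1 s x := by
          intro x w
          by_cases hw : w ∈ (h x).toFinset
          · rw [DFinsupp.mk_of_mem hw]
          · rw [DFinsupp.mk_of_notMem hw]
            rw [Set.Finite.mem_toFinset] at hw
            by_contra hne
            exact hw (fun h0 => hne h0.symm)
        refine DFinsupp.ext fun w => ?_
        rw [DFinsupp.add_apply, key, key, key, map_add] }
  else 0

open Classical in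
/-- The differential of the Gersten complex on families. -/
def dFam (d s : ℕ) : (Π₀ v : Pts X d (s + 1), MilnorK (kap X v.1) (s + 1)) →+
    Π₀ w : Pts X d s, MilnorK (kap X w.1) s :=
  DFinsupp.liftAddHom (column X d s)

/-- The entry is zero if `w` is not a specialization of `v`. -/
lemma entry_of_not {v w : X} (h : ¬ v ⤳ w) (n : ℕ) : entry v w n = 0 := dif_neg h

lemma column_apply_of_not (d s : ℕ) (v : Pts X d (s + 1)) (w : Pts X d s) (h : ¬ v.1 ⤳ w.1)
    (x : MilnorK (kap X v.1) (s + 1)) : column X d s v x w = 0 := by
  classical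
  unfold column
  split_ifs with hf
  · change (DFinsupp.mk (hf x).toFinset (fun w => entry v.1 w.1.1 s x) :
              Π₀ w : Pts X d s, MilnorK (kap X w.1) s) w = 0
    by_cases hw : w ∈ (hf x).toFinset
    · rw [DFinsupp.mk_of_mem hw, entry_of_not X h, AddMonoidHom.zero_apply]
    · rw [DFinsupp.mk_of_notMem hw]
  · rfl

lemma isLocalHom_dFam (d s : ℕ) : IsLocalHom (X := X.toTopCat)
    (fun v : Pts X d (s + 1) => (v.1 : X)) (fun w : Pts X d s => (w.1 : X)) (dFam X d s) := by
  classical
  intro f w hf
  unfold dFam
  rw [DFinsupp.liftAddHom_apply, DFinsupp.sumAddHom_apply, DFinsupp.sum, DFinsupp.finsetSum_apply]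
  refine Finset.sum_eq_zero fun v _ => ?_
  by_cases h : v.1 ⤳ w.1
  · rw [hf v h, map_zero, DFinsupp.zero_apply]
  · exact column_apply_of_not X d s v w h _

end points

section complex

variable (X : Scheme.{u}) [IsNoetherian X]

instance noetherianSpace_toTopCat : NoetherianSpace X.toTopCat :=
  inferInstanceAs (NoetherianSpace X)

/-- The term `C^(d-s)` of the Gersten complex of `K^M_d`: finitely supported families in
`K_s(κ(v))`, `v` of codimension `d - s`. -/
def D (d s : ℕ) : AbSh X :=
  (E (X := X.toTopCat) (fun v : Pts X d s => (v.1 : X)) (fun v => MilnorK (kap X v.1) s)).sheaf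

/-- The differential `C^(d-s-1) ⟶ C^(d-s)`. -/
def dD (d s : ℕ) : D X d (s + 1) ⟶ D X d s := mapE (dFam X d s) (isLocalHom_dFam X d s)

end complex

end

end Pool.Agent.H17.KW
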