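import Pool.Agent.H84.KEW.Dim

/-! Local lifts of a global section of a quotient of the sheaf of families. -/

open CategoryTheory TopologicalSpace Opposite
open Pool.Agent.H84.KEW

universe u

namespace Pool.Agent.H17.KW

noncomputable section

variable {X : TopCat.{u}} [NoetherianSpace X]
variable {ι κ : Type u} {p : ι → X} {q : κ → X} {A : ι → Type u} {B : κ → Type u}
  [∀ i, AddCommGroup (A i)] [∀ k, AddCommGroup (B k)]

/-- The sheaf of families modulo the families with conditions. -/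
abbrev quo (S : X → AddSubgroup (Π₀ i, A i)) : Shf X :=
  Limits.cokernel (FSh.incl (stalkwise p A S) (E p A) (fun _ _ hf => hf.1))

/-- The projection. -/
abbrev quoπ (S : X → AddSubgroup (Π₀ i, A i)) : (E p A).sheaf ⟶ quo (p := p) S :=
  Limits.cokernel.π (FSh.incl (stalkwise p A S) (E p A) (fun _ _ hf => hf.1))

lemma quo_shortExact (S : X → AddSubgroup (Π₀ i, A i)) :
    (ShortComplex.mk (FSh.incl (stalkwise p A S) (E p A) (fun _ _ hf => hf.1))
      (quoπ (p := p) S) (Limits.cokernel.condition _)).ShortExact := by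
  refine ShortComplex.ShortExact.mk' (ShortComplex.exact_cokernel _) ?_
    (inferInstanceAs (Epi (Limits.cokernel.π _)))
  refine mono_of_injective _ (fun U f hf => ?_)
  exact Subtype.ext (congrArg Subtype.val hf :)

/-- A section of the sheaf of families which is zero in the quotient satisfies the conditions. -/
lemma mem_of_quoπ_eq_zero (S : X → AddSubgroup (Π₀ i, A i)) {U : Opens X} (g : (E p A).sec U)
    (h : (quoπ (p := p) S).hom.app (op U) (show (E p A).sheaf.obj.obj (op U) from g) = 0) :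
    ∀ x ∈ U, gen p A x g.1 ∈ S x := by
  obtain ⟨f, hf⟩ := lift_of_exact (quo_shortExact (p := p) S) (U := U)
    (show (E p A).sheaf.obj.obj (op U) from g) h
  have h1 : (show (stalkwise p A S).sec U from f).1 = g.1 := congrArg Subtype.val hf
  intro x hx
  rw [← h1]
  exact (show (stalkwise p A S).sec U from f).2.2 x hx

/-- Local lifts of a global section of a quotient whose image is the class of a family `z`. -/
theorem exists_charts {φ : (Π₀ i, A i) →+ (Π₀ k, B k)} (hφ : IsLocalHom p q φ)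
    (S₁ : X → AddSubgroup (Π₀ i, A i)) (S₀ : X → AddSubgroup (Π₀ k, B k))
    (τ : quo (p := p) S₁ ⟶ quo (p := q) S₀)
    (hτ : mapE φ hφ ≫ quoπ (p := q) S₀ = quoπ (p := p) S₁ ≫ τ)
    (y : (quo (p := p) S₁).obj.obj (op ⊤)) (z : (E q B).sec ⊤)
    (hy : τ.hom.app (op ⊤) y =
      (quoπ (p := q) S₀).hom.app (op ⊤) (show (E q B).sheaf.obj.obj (op ⊤) from z)) :
    ∃ (J : Type) (_ : Finite J) (U : J → Opens X) (h : J → Π₀ i, A i),
      (∀ x : X, ∃ a, x ∈ U a) ∧
      (∀ a, ∀ x ∈ U a, gen q B x (φ (h a) - z.1) ∈ S₀ x) ∧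
      ∀ a b, ∀ x ∈ U a, x ∈ U b → gen p A x (h a - h b) ∈ S₁ x := by
  have key : ∀ x : X, ∃ (V : Opens X), x ∈ V ∧ ∃ f : (E p A).sec V,
      (quoπ (p := p) S₁).hom.app (op V) (show (E p A).sheaf.obj.obj (op V) from f) =
        (quo (p := p) S₁).obj.map (homOfLE le_top).op y := by
    intro x
    obtain ⟨V, hV, hxV, f, hf⟩ := locSurj_of_epi (quoπ (p := p) S₁) y (Opens.mem_top x)
    exact ⟨V, hxV, f, hf⟩
  choose V hV f hf using key
  obtain ⟨t, ht⟩ := (NoetherianSpace.isCompact (Set.univ : Set X)).elim_finite_subcover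
    (fun x : X => ((V x : Opens X) : Set X)) (fun x => (V x).isOpen)
    (fun x _ => Set.mem_iUnion.2 ⟨x, hV x⟩)
  -- reindex by `Fin`
  obtain ⟨n, ⟨eqv⟩⟩ : ∃ n, Nonempty (Fin n ≃ {x // x ∈ t}) :=
    ⟨t.card, ⟨(Fintype.equivFinOfCardEq (by simp)).symm⟩⟩
  refine ⟨Fin n, inferInstance, fun a => V (eqv a).1, fun a => (f (eqv a).1).1, ?_, ?_, ?_⟩
  · intro x
    obtain ⟨w, hw, hxw⟩ := Set.mem_iUnion₂.1 (ht (Set.mem_univ x))
    refine ⟨eqv.symm ⟨w, hw⟩, ?_⟩
    change x ∈ V (eqv (eqv.symm ⟨w, hw⟩)).1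
    rw [Equiv.apply_symm_apply]
    exact hxw
  · intro a x hx
    have h1 : (quoπ (p := q) S₀).hom.app (op (V (eqv a).1))
        ((mapE φ hφ).hom.app (op (V (eqv a).1))
          (show (E p A).sheaf.obj.obj (op (V (eqv a).1)) from f (eqv a).1)) =
        (quoπ (p := q) S₀).hom.app (op (V (eqv a).1))
          ((E q B).sheaf.obj.map (homOfLE le_top).op
            (show (E q B).sheaf.obj.obj (op ⊤) from z)) := by
      rw [map_app, ← hy, ← map_app, ← hf]
      exact ConcreteCategory.congr_hom (congrArg (fun m => m.hom.app (op (V (eqv a).1))) hτ) _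
    let g : (E q B).sec (V (eqv a).1) :=
      (show (E q B).sec (V (eqv a).1) from (mapE φ hφ).hom.app (op (V (eqv a).1))
          (show (E p A).sheaf.obj.obj (op (V (eqv a).1)) from f (eqv a).1)) -
        (show (E q B).sec (V (eqv a).1) from (E q B).sheaf.obj.map (homOfLE le_top).op
            (show (E q B).sheaf.obj.obj (op ⊤) from z))
    have h2 := mem_of_quoπ_eq_zero (p := q) S₀ g (by
      refine (map_sub ((quoπ (p := q) S₀).hom.app (op (V (eqv a).1))).hom _ _).trans ?_
      rw [sub_eq_zero]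
      exact h1) x hx
    have h3 : g.1 = keep q B (V (eqv a).1) (φ (f (eqv a).1).1 - z.1) := by
      rw [map_sub]
      rfl
    rwa [h3, gen_keep q hx] at h2
  · intro a b x hxa hxb
    let W : Opens X := V (eqv a).1 ⊓ V (eqv b).1
    let g : (E p A).sec W :=
      (E p A).resHom (inf_le_left : W ≤ V (eqv a).1) (f (eqv a).1) -
        (E p A).resHom (inf_le_right : W ≤ V (eqv b).1) (f (eqv b).1)
    have h1 : (quoπ (p := p) S₁).hom.app (op W)
        ((E p A).sheaf.obj.map (homOfLE (inf_le_left : W ≤ V (eqv a).1)).op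
          (show (E p A).sheaf.obj.obj (op (V (eqv a).1)) from f (eqv a).1)) =
        (quoπ (p := p) S₁).hom.app (op W)
        ((E p A).sheaf.obj.map (homOfLE (inf_le_right : W ≤ V (eqv b).1)).op
          (show (E p A).sheaf.obj.obj (op (V (eqv b).1)) from f (eqv b).1)) := by
      rw [map_app, map_app, hf, hf]
      change ((quo (p := p) S₁).obj.map _ ≫ (quo (p := p) S₁).obj.map _) y =
        ((quo (p := p) S₁).obj.map _ ≫ (quo (p := p) S₁).obj.map _) y
      rw [← Functor.map_comp, ← Functor.map_comp]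
      rfl
    have h2 := mem_of_quoπ_eq_zero (p := p) S₁ g (by
      refine (map_sub ((quoπ (p := p) S₁).hom.app (op W)).hom _ _).trans ?_
      rw [sub_eq_zero]
      exact h1) x ⟨hxa, hxb⟩
    have h3 : g.1 = keep p A W ((f (eqv a).1).1 - (f (eqv b).1).1) := by
      rw [map_sub]
      rfl
    rwa [h3, gen_keep p (show x ∈ W from ⟨hxa, hxb⟩)] at h2

end

end Pool.Agent.H17.KW
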