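import Pool.Agent.H17.KW.ResMap
import Pool.Agent.H62.KG.Thick

/-! The inverse system of the groups `H^d(X_n, K^M_d/q)` and isomorphisms of pro-objects. -/

open CategoryTheory TopologicalSpace Opposite AlgebraicGeometry Limits
open Pool.Agent.H62.MK Pool.Agent.H84.KEW Pool.Agent.H62.Clos

universe u

namespace Pool.Agent.H17.KW

noncomputable section

section transition

variable {X Y Z : Scheme.{u}} (q n : ℕ)

/-- The natural map of presheaves `K^M_n(O_Y(U)) / q → (K^M_{n,Z} / q)(j⁻¹ U)`. -/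
def modPre (j : Z ⟶ Y) : KModPre Y q n ⟶ (dirIm j (KModSh Z q n)).obj :=
  (Functor.whiskerRight j.c (MilnorModFunctor q n)) ≫
    (Functor.whiskerLeft (Opens.map j.base).op
      (toSheafify (Opens.grothendieckTopology Z.toTopCat) (KModPre Z q n)))

/-- The natural map of sheaves `K^M_{n,Y} / q → j_* (K^M_{n,Z} / q)` for a morphism `j : Z → Y`. -/
def modSh (j : Z ⟶ Y) : KModSh Y q n ⟶ dirIm j (KModSh Z q n) :=
  ⟨sheafifyLift (Opens.grothendieckTopology Y.toTopCat) (modPre q n j)
    (dirIm j (KModSh Z q n)).2⟩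

/-- The natural map `i_* (K^M_{n,Y} / q) → (i ∘ j)_* (K^M_{n,Z} / q)`. -/
def trSh (i : Y ⟶ X) (j : Z ⟶ Y) :
    dirIm i (KModSh Y q n) ⟶ dirIm (j ≫ i) (KModSh Z q n) :=
  (TopCat.Sheaf.pushforward AddCommGrpCat.{u} i.base).map (modSh q n j)

lemma toSheafify_redSh (i : Y ⟶ X) :
    toSheafify (Opens.grothendieckTopology X.toTopCat) (KPre X n) ≫ (redSh i q n).hom =
      redPre i q n :=
  toSheafify_sheafifyLift _ _ _

lemma toSheafify_modSh (j : Z ⟶ Y) :
    toSheafify (Opens.grothendieckTopology Y.toTopCat) (KModPre Y q n) ≫ (modSh q n j).hom =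
      modPre q n j :=
  toSheafify_sheafifyLift _ _ _

lemma redPre_trSh (i : Y ⟶ X) (j : Z ⟶ Y) :
    redPre i q n ≫ (trSh q n i j).hom = redPre (j ≫ i) q n := by
  refine NatTrans.ext (funext fun U => ?_)
  refine AddCommGrpCat.hom_ext (AddMonoidHom.ext fun x => ?_)
  have h1 := ConcreteCategory.congr_hom (congrArg (fun m => m.app
    (op ((Opens.map i.base).obj U.unop))) (toSheafify_modSh q n j))
    (toModQ q (MilnorK Γ(Y, i ⁻¹ᵁ U.unop) n) (Pool.Agent.H62.MK.map (i.app U.unop).hom n x))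
  refine Eq.trans h1 ?_
  have h2 : Pool.Agent.H62.MK.map (j.app (i ⁻¹ᵁ U.unop)).hom n
      (Pool.Agent.H62.MK.map (i.app U.unop).hom n x) =
      Pool.Agent.H62.MK.map ((j ≫ i).app U.unop).hom n x := by
    have h3 := congrArg (fun f : _ →+ _ => f x)
      (milnor_map_comp (i.app U.unop).hom (j.app (i ⁻¹ᵁ U.unop)).hom n)
    have h4 : (j.app (i ⁻¹ᵁ U.unop)).hom.comp (i.app U.unop).hom = ((j ≫ i).app U.unop).hom := by
      rw [Scheme.Hom.comp_app]
      rfl
    rw [h4] at h3
    exact h3.symm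
  exact congrArg (fun t => (toSheafify (Opens.grothendieckTopology Z.toTopCat)
    (KModPre Z q n)).app (op ((Opens.map (j ≫ i).base).obj U.unop))
      (toModQ q (MilnorK Γ(Z, (j ≫ i) ⁻¹ᵁ U.unop) n) t)) h2

lemma redSh_trSh (i : Y ⟶ X) (j : Z ⟶ Y) :
    redSh i q n ≫ trSh q n i j = redSh (j ≫ i) q n := by
  refine Sheaf.hom_ext ?_
  refine sheafify_hom_ext (Opens.grothendieckTopology X.toTopCat) _ _
    (dirIm (j ≫ i) (KModSh Z q n)).2 ?_
  refine Eq.trans ?_ ((redPre_trSh q n i j).trans (toSheafify_redSh q n (j ≫ i)).symm)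
  rw [← toSheafify_redSh]
  rfl

lemma redSh_eqToHom {i i' : Y ⟶ X} (h : i = i') :
    redSh i q n ≫ eqToHom (congrArg (fun i => dirIm i (KModSh Y q n)) h) = redSh i' q n := by
  subst h
  exact Category.comp_id _

end transition

section thickening

variable {A : Type u} [CommRing A] [IsLocalRing A] {X : Scheme.{u}}

/-- The closed immersion `X_n → X_(n+1)`. -/
def thickMap (f : X ⟶ Spec (CommRingCat.of A)) (n : ℕ) : thick f n ⟶ thick f (n + 1) :=
  pullback.lift (pullback.fst _ _) (pullback.snd _ _ ≫ Spec.map (CommRingCat.ofHom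
    (Ideal.Quotient.factor (Ideal.pow_le_pow_right (Nat.le_succ n))))) (by
      refine pullback.condition.trans (Eq.trans ?_ (Category.assoc _ _ _).symm)
      refine congrArg (pullback.snd _ _ ≫ ·) ?_
      rw [← Spec.map_comp]
      rfl)

lemma thickMap_thickι (f : X ⟶ Spec (CommRingCat.of A)) (n : ℕ) :
    thickMap f n ≫ thickι f (n + 1) = thickι f n := pullback.lift_fst _ _ _

/-- The transition map `F_(n+1) → F_n`. -/
def trF (f : X ⟶ Spec (CommRingCat.of A)) (q m n : ℕ) : Fsh f q m (n + 1) ⟶ Fsh f q m n :=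
  trSh q m (thickι f (n + 1)) (thickMap f n) ≫
    eqToHom (congrArg (fun i => dirIm i (KModSh (thick f n) q m)) (thickMap_thickι f n))

lemma redSh_trF (f : X ⟶ Spec (CommRingCat.of A)) (q m n : ℕ) :
    redSh (thickι f (n + 1)) q m ≫ trF f q m n = redSh (thickι f n) q m := by
  refine (Category.assoc _ _ _).symm.trans ?_
  refine (congrArg (· ≫ _) (redSh_trSh q m (thickι f (n + 1)) (thickMap f n))).trans ?_
  exact redSh_eqToHom q m (thickMap_thickι f n)

end thickening

section proiso

/-- Let `φ : M ⟶ N` be a morphism of inverse systems of abelian groups indexed by the natural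
numbers. It is an isomorphism of pro-objects if and only if for every `n` there are `m ≥ n` and a
homomorphism `N m → M n` such that both triangles in the square formed by `φ m`, `φ n` and the
transition maps commute. -/
def IsProIso {M N : ℕᵒᵖ ⥤ AddCommGrpCat.{u}} (φ : M ⟶ N) : Prop :=
  ∀ n : ℕ, ∃ (m : ℕ) (h : n ≤ m) (g : N.obj (op m) ⟶ M.obj (op n)),
    g ≫ φ.app (op n) = N.map (homOfLE h).op ∧ φ.app (op m) ≫ g = M.map (homOfLE h).op

/-- A level morphism which is bijective in all large degrees is an isomorphism of pro-objects. -/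
theorem isProIso_of_bijective {M N : ℕᵒᵖ ⥤ AddCommGrpCat.{u}} (φ : M ⟶ N) (n₀ : ℕ)
    (h : ∀ n, n₀ ≤ n → Function.Bijective (φ.app (op n))) : IsProIso φ := by
  intro n
  have hm : n ≤ max n n₀ := le_max_left _ _
  have hi : IsIso (φ.app (op (max n n₀))) :=
    (ConcreteCategory.isIso_iff_bijective _).mpr (h _ (le_max_right _ _))
  refine ⟨max n n₀, hm, inv (φ.app (op (max n n₀))) ≫ M.map (homOfLE hm).op, ?_, ?_⟩
  · rw [Category.assoc, φ.naturality, IsIso.inv_hom_id_assoc]
  · rw [IsIso.hom_inv_id_assoc]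

end proiso

section prosystem

variable {A : Type u} [CommRing A] [IsLocalRing A] {X : Scheme.{u}}

/-- The transition map `H^m(X_(n+1), K^M_m / q) → H^m(X_n, K^M_m / q)`. -/
def trH (f : X ⟶ Spec (CommRingCat.of A)) (q m n : ℕ) :
    Sheaf.H (KModSh (thick f (n + 1)) q m) m →+ Sheaf.H (KModSh (thick f n) q m) m :=
  ((thickEquiv f q m n m).symm.toAddMonoidHom.comp (Sheaf.H.map (trF f q m n) m)).comp
    (thickEquiv f q m (n + 1) m).toAddMonoidHom

/-- The inverse system `n ↦ H^m(X_(n+1), K^M_{m, X_(n+1)} / q)`, `n = 0, 1, 2, …`. -/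
def proSys (f : X ⟶ Spec (CommRingCat.of A)) (q m : ℕ) : ℕᵒᵖ ⥤ AddCommGrpCat.{u} :=
  Functor.ofOpSequence
    (X := fun n => AddCommGrpCat.of (Sheaf.H (KModSh (thick f (n + 1)) q m) m))
    (fun n => AddCommGrpCat.ofHom (trH f q m (n + 1)))

lemma proSys_map (f : X ⟶ Spec (CommRingCat.of A)) (q m n : ℕ) :
    (proSys f q m).map (homOfLE (Nat.le_add_right n 1)).op =
      AddCommGrpCat.ofHom (trH f q m (n + 1)) :=
  Functor.ofOpSequence_map_homOfLE_succ _ n

variable [IsNoetherian X] {e : ℕ}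

lemma resCyc_trF (f : X ⟶ Spec (CommRingCat.of A)) (q n : ℕ) (h : Gersten X e)
    (z : Cyc X (e + 1)) :
    Sheaf.H.map (trF f q (e + 1) n) (e + 1) (resCyc f q (n + 1) h z) = resCyc f q n h z := by
  have h1 := Sheaf.H.map_comp_apply (redSh (thickι f (n + 1)) q (e + 1)) (n := e + 1)
    (trF f q (e + 1) n) (cycK h z)
  refine h1.symm.trans ?_
  exact congrArg (fun m => Sheaf.H.map m (e + 1) (cycK h z)) (redSh_trF f q (e + 1) n)

lemma res_trF (f : X ⟶ Spec (CommRingCat.of A)) (q n : ℕ) (h : Gersten X e)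
    (x : ModQ q (CH X e)) :
    Sheaf.H.map (trF f q (e + 1) n) (e + 1) (res f q (n + 1) h x) = res f q n h x := by
  obtain ⟨b, rfl⟩ := toModQ_surjective q (CH X e) x
  obtain ⟨z, rfl⟩ := QuotientAddGroup.mk'_surjective (dFam X (e + 1) 0).range b
  exact resCyc_trF f q n h z

lemma trH_resThick (f : X ⟶ Spec (CommRingCat.of A)) (q n : ℕ) (h : Gersten X e)
    (x : ModQ q (CH X e)) :
    trH f q (e + 1) n (resThick f q (n + 1) h x) = resThick f q n h x := by
  refine congrArg (thickEquiv f q (e + 1) n (e + 1)).symm ?_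
  refine Eq.trans ?_ (res_trF f q n h x)
  refine congrArg (Sheaf.H.map (trF f q (e + 1) n) (e + 1)) ?_
  exact AddEquiv.apply_symm_apply _ _

/-- The restriction map `CH^d(X) / q → lim_n H^d(X_n, K^M_{d, X_n} / q)` (`d = e + 1`), a
morphism from the constant inverse system. -/
def resPro (f : X ⟶ Spec (CommRingCat.of A)) (q : ℕ) (h : Gersten X e) :
    (Functor.const ℕᵒᵖ).obj (AddCommGrpCat.of (ModQ q (CH X e))) ⟶ proSys f q (e + 1) :=
  NatTrans.ofOpSequence (fun n => AddCommGrpCat.ofHom (resThick f q (n + 1) h)) (fun n => by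
    refine Eq.trans ?_ (congrArg (AddCommGrpCat.ofHom (resThick f q (n + 1 + 1) h) ≫ ·)
      (proSys_map f q (e + 1) n).symm)
    refine AddCommGrpCat.hom_ext (AddMonoidHom.ext fun x => ?_)
    exact (trH_resThick f q (n + 1) h x).symm)

lemma resPro_app (f : X ⟶ Spec (CommRingCat.of A)) (q : ℕ) (h : Gersten X e) (n : ℕ) :
    (resPro f q h).app (op n) = AddCommGrpCat.ofHom (resThick f q (n + 1) h) := rfl

/-- If the restriction maps are bijective for large `n` then the restriction map is an isomorphism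
of pro-objects. -/
theorem isProIso_resPro (f : X ⟶ Spec (CommRingCat.of A)) (q : ℕ) (h : Gersten X e) (n₀ : ℕ)
    (hb : ∀ n, n₀ ≤ n → Function.Bijective (resThick f q n h)) : IsProIso (resPro f q h) :=
  isProIso_of_bijective _ n₀ (fun n hn => hb (n + 1) (hn.trans (Nat.le_succ n)))

end prosystem

/-- **The full statement (Q1).** Let `A` be a henselian discrete valuation ring of characteristic
zero with residue field of characteristic `p > 0`, let `X` be a (noetherian) scheme, smooth and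
projective over `A` of relative dimension `e + 1`, for which the Gersten conjecture for
`K^M_{e+1}` holds. Then for every `r` the restriction map
`CH_1(X) / p^r → lim_n H^(e+1)(X_n, K^M_{e+1, X_n} / p^r)` is an isomorphism of pro-abelian groups;
the maps `CH_1(X) / p^r → H^(e+1)(X_n, K^M_{e+1, X_n} / p^r)` are surjective for all `n ≥ 1` and
bijective for all large `n`. -/
def StatementPro : Prop :=
  ∀ (A : Type u) [CommRing A] [IsDomain A] [IsDiscreteValuationRing A] [HenselianLocalRing A]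
    [CharZero A] (p : ℕ) [Fact p.Prime] [CharP (IsLocalRing.ResidueField A) p]
    (X : Scheme.{u}) [IsNoetherian X] (f : X ⟶ Spec (CommRingCat.of A)) (e : ℕ)
    [SmoothOfRelativeDimension (e + 1) f], IsProjectiveOver f → ∀ (h : Gersten X e) (r : ℕ),
    IsProIso (resPro f (p ^ r) h) ∧
    (∀ n, 1 ≤ n → Function.Surjective (resThick f (p ^ r) n h)) ∧
    ∃ n₀ : ℕ, ∀ n, n₀ ≤ n → Function.Bijective (resThick f (p ^ r) n h)

/-- The full statement follows from injectivity and surjectivity. -/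
theorem statementPro_of (h1 : Statement.{u})
    (h2 : ∀ (A : Type u) [CommRing A] [IsDomain A] [IsDiscreteValuationRing A]
      [HenselianLocalRing A] [CharZero A] (p : ℕ) [Fact p.Prime]
      [CharP (IsLocalRing.ResidueField A) p]
      (X : Scheme.{u}) [IsNoetherian X] (f : X ⟶ Spec (CommRingCat.of A)) (e : ℕ)
      [SmoothOfRelativeDimension (e + 1) f], IsProjectiveOver f → ∀ (h : Gersten X e) (r n : ℕ),
      1 ≤ n → Function.Surjective (res f (p ^ r) n h)) : StatementPro.{u} := by
  intro A _ _ _ _ _ p _ _ X _ f e _ hp h r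
  obtain ⟨n₀, hn₀⟩ := h1 A p X f e hp h r
  have hb : ∀ n, max n₀ 1 ≤ n → Function.Bijective (resThick f (p ^ r) n h) := fun n hn =>
    ⟨(resThick_injective_iff f (p ^ r) n h).mpr (hn₀ n ((le_max_left _ _).trans hn)),
      (resThick_surjective_iff f (p ^ r) n h).mpr
        (h2 A p X f e hp h r n ((le_max_right _ _).trans hn))⟩
  exact ⟨isProIso_resPro f (p ^ r) h _ hb, fun n hn =>
    (resThick_surjective_iff f (p ^ r) n h).mpr (h2 A p X f e hp h r n hn), _, hb⟩

end

end Pool.Agent.H17.KW
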