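import Pool.Agent.H17.KW.ResMap
import Pool.Agent.H17.KW.Charts
import Pool.Agent.H18.KEW.Chase
import Pool.Agent.H15.KEW.Van

/-! Reduction of the injectivity of the restriction map to conditions on families. -/

open CategoryTheory TopologicalSpace Opposite AlgebraicGeometry
open Pool.Agent.H62.MK Pool.Agent.H84.KEW Pool.Agent.H15.KEW

universe u

namespace Pool.Agent.H17.KW

noncomputable section

section injective

variable {X : Scheme.{u}} [IsNoetherian X] {e : ℕ}
variable {A : Type u} [CommRing A] [IsLocalRing A]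

/-- Injectivity of the restriction map in terms of cycles. -/
theorem res_injective (f : X ⟶ Spec (CommRingCat.of A)) (q n : ℕ) (h : Gersten X e)
    (H : ∀ z : Cyc X (e + 1), resCyc f q n h z = 0 → ∃ c z', z = dFam X (e + 1) 0 c + q • z') :
    Function.Injective (res f q n h) := by
  rw [injective_iff_map_eq_zero]
  intro a ha
  obtain ⟨b, rfl⟩ := toModQ_surjective q (CH X e) a
  obtain ⟨z, rfl⟩ := QuotientAddGroup.mk'_surjective (dFam X (e + 1) 0).range b
  obtain ⟨c, z', hz⟩ := H z ha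
  refine (toModQ_eq_zero q (CH X e) _).mpr ⟨QuotientAddGroup.mk' (dFam X (e + 1) 0).range z', ?_⟩
  have h1 : (QuotientAddGroup.mk' (dFam X (e + 1) 0).range) (dFam X (e + 1) 0 c) = 0 :=
    (QuotientAddGroup.eq_zero_iff _).mpr ⟨c, rfl⟩
  have h2 := (map_add (QuotientAddGroup.mk' (dFam X (e + 1) 0).range) (dFam X (e + 1) 0 c)
    (q • z')).trans (congrArg (· + _) h1)
  refine Eq.trans ?_ ((zero_add _).symm.trans (h2.symm.trans
    (congrArg (QuotientAddGroup.mk' (dFam X (e + 1) 0).range) hz.symm)))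
  exact (map_nsmul (QuotientAddGroup.mk' (dFam X (e + 1) 0).range) q z').symm

end injective

section complex

variable (X : Scheme.{u}) (d : ℕ)

/-- The group of families of `C^(d-s)`. -/
abbrev Fam (s : ℕ) : Type u := Π₀ v : Pts X d s, MilnorK (kap X v.1) s

/-- The points of codimension `d - s` as points of the space. -/
abbrev pt (s : ℕ) : Pts X d s → X.toTopCat := fun v => v.1

variable (P : ∀ s, X → AddSubgroup (Fam X d s))

/-- The conditions of the subcomplex. -/
def UP : ∀ s, X.toTopCat → AddSubgroup (Fam X d s)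
  | 0 => P 0
  | s + 1 => subP (p := pt X d (s + 1)) (q := pt X d s) (dFam X d s) (P (s + 1)) (P s)

variable [IsNoetherian X]

/-- The terms of the quotient complex. -/
abbrev TT (s : ℕ) : AbSh X := quo (p := pt X d s) (UP X d P s)

/-- The inclusion of the subcomplex. -/
def uu (s : ℕ) : (stalkwise (pt X d s) _ (UP X d P s)).sheaf ⟶ D X d s :=
  FSh.incl (stalkwise (pt X d s) _ (UP X d P s)) (E _ _) (fun _ _ hf => hf.1)

/-- The projection to the quotient complex. -/
def qq (s : ℕ) : D X d s ⟶ TT X d P s := quoπ (p := pt X d s) (UP X d P s)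

lemma epi_qq (s : ℕ) : Epi (qq X d P s) := (quo_shortExact (p := pt X d s) (UP X d P s)).epi_g

variable {X d P}

lemma dd_eq_zero (hw : ∀ s, dD X d (s + 1) ≫ dD X d s = 0) (s : ℕ) (f : Fam X d (s + 2)) :
    dFam X d s (dFam X d (s + 1) f) = 0 := by
  have h1 := congrArg (fun m => m.hom.app (op ⊤)
    (show (D X d (s + 2)).obj.obj (op ⊤) from
      (show (E (pt X d (s + 2)) (fun v => MilnorK (kap X v.1) (s + 2))).sec ⊤ from
        ⟨f, fun _ hi => absurd trivial hi⟩))) (hw s)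
  have h2 := congrArg (fun g : (E (pt X d s) (fun v => MilnorK (kap X v.1) s)).sec ⊤ => g.1) h1
  have h3 : keep (pt X d s) (fun v => MilnorK (kap X v.1) s) ⊤ (dFam X d s
    (keep (pt X d (s + 1)) (fun v => MilnorK (kap X v.1) (s + 1)) ⊤ (dFam X d (s + 1) f))) = 0 := h2
  rw [keep_eq_self (pt X d (s + 1)) (fun i hi => absurd (Opens.mem_top _) hi),
    keep_eq_self (pt X d s) (fun i hi => absurd (Opens.mem_top _) hi)] at h3
  exact h3

lemma UP_dFam (hw : ∀ s, dD X d (s + 1) ≫ dD X d s = 0) (s : ℕ) (x : X.toTopCat)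
    (f : Fam X d (s + 1)) (hf : gen (pt X d (s + 1)) (fun v => MilnorK (kap X v.1) (s + 1)) x f ∈
      UP X d P (s + 1) x) :
    gen (pt X d s) (fun v => MilnorK (kap X v.1) s) x (dFam X d s f) ∈ UP X d P s x := by
  have h1 : gen (pt X d s) (fun v => MilnorK (kap X v.1) s) x (dFam X d s f) ∈ P s x := by
    have h2 : gen (pt X d s) (fun v => MilnorK (kap X v.1) s) x (dFam X d s
      (gen (pt X d (s + 1)) (fun v => MilnorK (kap X v.1) (s + 1)) x f)) ∈ P s x := hf.2
    rwa [gen_comp_gen (isLocalHom_dFam X d s)] at h2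
  cases s with
  | zero => exact h1
  | succ s =>
    refine ⟨h1, ?_⟩
    change gen (pt X d s) (fun v => MilnorK (kap X v.1) s) x (dFam X d s
      (gen (pt X d (s + 1)) (fun v => MilnorK (kap X v.1) (s + 1)) x (dFam X d (s + 1) f))) ∈ P s x
    rw [gen_comp_gen (isLocalHom_dFam X d s), dd_eq_zero hw, map_zero]
    exact zero_mem _

lemma uu_dD (hw : ∀ s, dD X d (s + 1) ≫ dD X d s = 0) (s : ℕ) :
    ∃ m : (stalkwise (pt X d (s + 1)) _ (UP X d P (s + 1))).sheaf ⟶
      (stalkwise (pt X d s) _ (UP X d P s)).sheaf,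
      m ≫ uu X d P s = uu X d P (s + 1) ≫ dD X d s := by
  refine ⟨FSh.map _ _ (dFam X d s) (isLocalHom_dFam X d s) ?_, ?_⟩
  · intro U f hf
    refine ⟨fun i hi => keep_apply_neg _ _ hi, fun x hx => ?_⟩
    rw [gen_keep _ hx]
    exact UP_dFam hw s x f (hf.2 x hx)
  · refine Sheaf.hom_ext (NatTrans.ext (funext fun U => ?_))
    refine AddCommGrpCat.hom_ext (AddMonoidHom.ext fun x => ?_)
    rfl

lemma uu_qq (s : ℕ) : uu X d P s ≫ qq X d P s = 0 := Limits.cokernel.condition _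

lemma incl_dD (hw : ∀ s, dD X d (s + 1) ≫ dD X d s = 0) (s : ℕ) :
    uu X d P (s + 1) ≫ dD X d s ≫ qq X d P s = 0 := by
  obtain ⟨m, hm⟩ := uu_dD (P := P) hw s
  rw [← Category.assoc, ← hm, Category.assoc, uu_qq, Limits.comp_zero]

/-- The differential of the quotient complex. -/
def tt (hw : ∀ s, dD X d (s + 1) ≫ dD X d s = 0) (s : ℕ) : TT X d P (s + 1) ⟶ TT X d P s :=
  Limits.cokernel.desc (uu X d P (s + 1)) (dD X d s ≫ qq X d P s) (incl_dD hw s)

lemma qq_tt (hw : ∀ s, dD X d (s + 1) ≫ dD X d s = 0) (s : ℕ) :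
    dD X d s ≫ qq X d P s = qq X d P (s + 1) ≫ tt hw s :=
  (Limits.cokernel.π_desc _ _ _).symm

lemma tt_tt (hw : ∀ s, dD X d (s + 1) ≫ dD X d s = 0) (s : ℕ) :
    tt (P := P) hw (s + 1) ≫ tt hw s = 0 := by
  have hE := epi_qq X d P (s + 2)
  rw [← cancel_epi (qq X d P (s + 2)), ← Category.assoc, ← qq_tt, Category.assoc, ← qq_tt,
    ← Category.assoc, hw, Limits.zero_comp, Limits.comp_zero]

end complex

section main

variable {X : Scheme.{u}} [IsNoetherian X] {e : ℕ}
variable {A : Type u} [CommRing A] [IsLocalRing A]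

/-- **The reduction.** -/
theorem red (f : X ⟶ Spec (CommRingCat.of A)) (q n : ℕ) (h : Gersten X e)
    (P : ∀ s, X → AddSubgroup (Fam X (e + 1) s))
    (hepi : Epi (redSh (thickι f n) q (e + 1)))
    (hfact : ∃ φ : Fsh f q (e + 1) n ⟶ TT X (e + 1) P (e + 1),
      redSh (thickι f n) q (e + 1) ≫ φ = topSh X (e + 1) ≫ qq X (e + 1) P (e + 1))
    (hvan : ∀ s, 1 ≤ s → s ≤ e → Subsingleton (Sheaf.H (TT X (e + 1) P (s + 1)) s))
    (hlast : ∀ (z : Cyc X (e + 1)) (J : Type) [Finite J] (U : J → Opens X)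
      (c : J → Fam X (e + 1) 1), (∀ x : X, ∃ a, x ∈ U a) →
      (∀ a, ∀ x ∈ U a, gen (pt X (e + 1) 0) (fun v => MilnorK (kap X v.1) 0) x
        (dFam X (e + 1) 0 (c a) - z) ∈ P 0 x) →
      (∀ a b, ∀ x ∈ U a, x ∈ U b → gen (pt X (e + 1) 1) (fun v => MilnorK (kap X v.1) 1) x
        (c a - c b) ∈ P 1 x) →
      ∃ c' z', z = dFam X (e + 1) 0 c' + q • z') :
    Function.Injective (res f q n h) := by
  refine res_injective f q n h (fun z hz => ?_)
  obtain ⟨φ, hφ⟩ := hfact
  have hw := IsRes.w h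
  obtain ⟨y, hy⟩ := Pool.Agent.H18.KEW.chase_sections (qq_tt (P := P) hw) h (tt_tt hw)
    (redSh (thickι f n) q (e + 1)) φ hφ hvan (secH X (D X (e + 1) 0) (toSec X (e + 1) z)) hz
  have h1 : Sheaf.H.equiv₀ (D X (e + 1) 0) (Limits.isTerminalTop (α := Opens X.toTopCat))
      (secH X (D X (e + 1) 0) (toSec X (e + 1) z)) = toSec X (e + 1) z :=
    AddEquiv.apply_symm_apply _ _
  rw [h1] at hy
  obtain ⟨J, hJ, U, c, hcov, h2, h3⟩ := exists_charts (isLocalHom_dFam X (e + 1) 0)
    (UP X (e + 1) P 1) (UP X (e + 1) P 0) (tt hw 0) (qq_tt hw 0) y (toSec X (e + 1) z) hy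
  refine hlast z J U c hcov (fun a x hx => h2 a x hx) (fun a b x hxa hxb => ?_)
  exact (h3 a b x hxa hxb).1

end main

end

end Pool.Agent.H17.KW
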