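import Pool.Agent.H61.KW.TA

set_option autoImplicit false

namespace Pool.Agent.H17.KW.SM2

open Pool.Agent.H61.KV Pool.Agent.H61.KW

theorem smp_one {V : Type} [NormedAddCommGroup V] [NormedSpace ℝ V] [FiniteDimensional ℝ V]
    (C : Set V) (q : V) (hC : IsCC C) (hq : Ex C q) : Smp C 1 q := by
  refine ⟨fun _ => q, ?_, fun _ => hq, fun _ => self hC hq.1, ?_⟩
  · exact LinearIndependent.of_subsingleton 0 hq.2.1
  · intro r hr
    obtain ⟨c, hc, rfl⟩ := ex_mem hC hq hr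
    exact ⟨fun _ => c, fun _ => hc, by simp⟩

theorem pf_SM2 (h : T_TWO) (h2 : T_SMD) (h3 : T_GNF) : T_SM2 := by
  intro V _ _ _ C q hC hq
  refine ⟨smp_one C q hC, ?_, ?_, ?_⟩
  · intro hr
    obtain ⟨x, y, hx, hy, hd, h4, h5⟩ := h V C q hC hq hr
    exact h2 V C x y q 1 1 hC hd (smp_one C x hC hx) (smp_one C y hC hy) hq h5 h4
  · intro a z hp hs
    exact h2 V C a z q 3 1 hC hp.ds hs (smp_one C z hC hp.ex) hq hp.mem' hp.mem
  · rintro a z hp ⟨x, hx⟩
    have ha : a ∈ C := hp.ds.1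
    have hz : z ∈ C := hp.ds.2.1
    have h4 : a ∈ Fc C q := tra hC hq hp.mem (left_fc hC ha hz)
    have h5 := (h3 V C q 4 x hC hq hx).2.2.2.2.2 a h4
    rw [hp.rk3] at h5
    exact h5

end Pool.Agent.H17.KW.SM2
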