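import Pool.Agent.H61.KW.TA

set_option autoImplicit false

namespace Pool.Agent.H17.KW.SPG

open Pool.Agent.H61.KV Pool.Agent.H61.KW

theorem pf_SPG : T_SPG := by
  intro V _ _ _ C q r s hC hqf hr hs hint v hvq hvr
  have hq := hqf.1
  obtain ⟨g, hg⟩ := hqf.2 r hr
  have ht0 : r - g ∈ Fc C q := foot_dec hC hq hr hg
  have hgC : g ∈ C := foot_memC hC hq hg
  have ht0r : r - g ∈ Fc C r := by
    refine (face hC hr (mem_C ht0) hgC ?_).1
    rw [sub_add_cancel]
    exact self hC hr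
  have ht0s := hint _ ht0 ht0r
  obtain ⟨ε, hε, hroom⟩ := room hC hr hvr
  have h1 : r + ε • v ∈ Fc C r := hroom ε hε.le le_rfl
  have hb : r + ε • v - g ∈ Fc C q := by
    refine (hg _).1 ⟨mem_C h1, ?_⟩
    rw [add_sub_cancel_left]
    exact Submodule.smul_mem _ _ hvq
  have hbr : r + ε • v - g ∈ Fc C r := by
    refine (face hC hr (mem_C hb) hgC ?_).1
    rw [sub_add_cancel]
    exact h1
  have hbs := hint _ hb hbr
  have h2 : ε • v ∈ Sp C s := by
    have h3 : ε • v = (r + ε • v - g) - (r - g) := by abel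
    rw [h3]
    exact Submodule.sub_mem _ (mem_sp hbs) (mem_sp ht0s)
  have h4 : v = ε⁻¹ • (ε • v) := by rw [smul_smul, inv_mul_cancel₀ hε.ne', one_smul]
  rw [h4]
  exact Submodule.smul_mem _ _ h2

end Pool.Agent.H17.KW.SPG
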